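import Mathlib
import Pool.Agent.Q297.WT.Stm

/-!
# WT-YM (helper79): weak limits of random measures on `[0,1]` bounded in `L²`
-/

open MeasureTheory ProbabilityTheory Set Filter Topology
open scoped ENNReal NNReal unitInterval

namespace Q79.WT

/-- weak compactness of balls along an ultrafilter, in a Hilbert space -/
theorem weakLim {H : Type*} [NormedAddCommGroup H] [InnerProductSpace ℝ H] [CompleteSpace H]
    (𝒰 : Ultrafilter ℕ) (v : ℕ → H) (B : ℝ) (hB : ∀ n, ‖v n‖ ≤ B) :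
    ∃ w : H, ‖w‖ ≤ B ∧
      ∀ h : H, Tendsto (fun n => (inner ℝ (v n) h : ℝ)) (𝒰 : Filter ℕ) (𝓝 (inner ℝ w h)) := by
  have hB0 : 0 ≤ B := le_trans (norm_nonneg _) (hB 0)
  have h1 : ∀ h : H, ∃ c : ℝ, ‖c‖ ≤ B * ‖h‖ ∧
      Tendsto (fun n => (inner ℝ (v n) h : ℝ)) (𝒰 : Filter ℕ) (𝓝 c) := by
    intro h
    have hK : IsCompact (Metric.closedBall (0:ℝ) (B * ‖h‖)) := isCompact_closedBall _ _
    have hmem : ∀ n, (inner ℝ (v n) h : ℝ) ∈ Metric.closedBall (0:ℝ) (B * ‖h‖) := by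
      intro n
      rw [mem_closedBall_zero_iff]
      refine (norm_inner_le_norm _ _).trans ?_
      gcongr
      exact hB n
    obtain ⟨c, hc, hc'⟩ := hK.ultrafilter_le_nhds (𝒰.map (fun n => (inner ℝ (v n) h : ℝ))) (by
      rw [le_principal_iff, Ultrafilter.coe_map, Filter.mem_map]
      exact Filter.univ_mem' hmem)
    exact ⟨c, by simpa using hc, hc'⟩
  choose c hc1 hc2 using h1
  let ℓ : H →ₗ[ℝ] ℝ :=
    { toFun := c
      map_add' := by
        intro a b
        refine tendsto_nhds_unique (hc2 (a + b)) ?_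
        have := (hc2 a).add (hc2 b)
        refine this.congr ?_
        intro n
        rw [inner_add_right]
      map_smul' := by
        intro r a
        refine tendsto_nhds_unique (hc2 (r • a)) ?_
        have := (hc2 a).const_mul r
        refine this.congr ?_
        intro n
        rw [inner_smul_right] }
  let L : H →L[ℝ] ℝ := ℓ.mkContinuous B hc1
  refine ⟨(InnerProductSpace.toDual ℝ H).symm L, ?_, ?_⟩
  · rw [LinearIsometryEquiv.norm_map]
    exact LinearMap.mkContinuous_norm_le _ hB0 _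
  · intro h
    rw [InnerProductSpace.toDual_symm_apply]
    exact hc2 h

/-- weak limits in `L²(m)`, tested on bounded measurable functions -/
theorem weakL2 {X : Type} [MeasurableSpace X] (m : Measure X) [IsProbabilityMeasure m]
    (𝒰 : Ultrafilter ℕ) (a : ℕ → X → ℝ) (ha : ∀ n, Measurable (a n)) (K : ℝ≥0)
    (hK : ∀ n, ∫⁻ x, ‖a n x‖ₑ ^ 2 ∂m ≤ K) :
    ∃ g : X → ℝ, Measurable g ∧ Integrable g m ∧ ∫⁻ x, ‖g x‖ₑ ^ 2 ∂m ≤ K ∧
      ∀ h : X → ℝ, Measurable h → (∀ x, |h x| ≤ 1) →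
        Tendsto (fun n => ∫ x, a n x * h x ∂m) (𝒰 : Filter ℕ) (𝓝 (∫ x, g x * h x ∂m)) := by
  have hL : ∀ n, MemLp (a n) 2 m := by
    intro n
    refine ⟨(ha n).aestronglyMeasurable, ?_⟩
    rw [eLpNorm_lt_top_iff_lintegral_rpow_enorm_lt_top (by norm_num) (by norm_num)]
    simp only [ENNReal.toReal_ofNat, ENNReal.rpow_ofNat]
    exact lt_of_le_of_lt (hK n) ENNReal.coe_lt_top
  have hnorm : ∀ n, ‖(hL n).toLp (a n)‖ ≤ Real.sqrt K := by
    intro n
    rw [Lp.norm_toLp]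
    have h2 : eLpNorm (a n) 2 m ≤ ENNReal.ofReal (Real.sqrt K) := by
      rw [eLpNorm_eq_lintegral_rpow_enorm_toReal (by norm_num) (by norm_num)]
      simp only [ENNReal.toReal_ofNat, ENNReal.rpow_ofNat, one_div]
      have h3 := ENNReal.rpow_le_rpow (hK n) (show (0:ℝ) ≤ (2:ℝ)⁻¹ by norm_num)
      refine h3.trans (le_of_eq ?_)
      rw [Real.sqrt_eq_rpow, ← ENNReal.ofReal_rpow_of_nonneg (NNReal.coe_nonneg K) (by norm_num)]
      simp
    exact ENNReal.toReal_le_of_le_ofReal (Real.sqrt_nonneg _) h2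
  obtain ⟨w, hw1, hw2⟩ := weakLim 𝒰 (fun n => (hL n).toLp (a n)) (Real.sqrt K) hnorm
  have hwm : MemLp (w : X → ℝ) 2 m := Lp.memLp w
  let g : X → ℝ := (Lp.aestronglyMeasurable w).mk w
  have hgw : (w : X → ℝ) =ᵐ[m] g := (Lp.aestronglyMeasurable w).ae_eq_mk
  have hgm : StronglyMeasurable g := (Lp.aestronglyMeasurable w).stronglyMeasurable_mk
  have hgL : MemLp g 2 m := hwm.ae_eq hgw
  refine ⟨g, hgm.measurable, hgL.integrable (by norm_num), ?_, ?_⟩
  · have h4 : eLpNorm g 2 m ≤ ENNReal.ofReal (Real.sqrt K) := by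
      rw [← eLpNorm_congr_ae hgw]
      have : ENNReal.ofReal ‖w‖ = eLpNorm w 2 m := by
        rw [Lp.norm_def, ENNReal.ofReal_toReal (Lp.eLpNorm_ne_top w)]
      rw [← this]
      exact ENNReal.ofReal_le_ofReal hw1
    rw [eLpNorm_eq_lintegral_rpow_enorm_toReal (by norm_num) (by norm_num)] at h4
    simp only [ENNReal.toReal_ofNat, ENNReal.rpow_ofNat, one_div] at h4
    have h5 := ENNReal.rpow_le_rpow h4 (show (0:ℝ) ≤ 2 by norm_num)
    rw [← ENNReal.rpow_mul] at h5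
    norm_num at h5
    refine h5.trans (le_of_eq ?_)
    rw [← ENNReal.ofReal_pow (Real.sqrt_nonneg _), Real.sq_sqrt (NNReal.coe_nonneg K)]
    simp
  · intro h hh hb
    have hhL : MemLp h 2 m := by
      refine MemLp.of_bound hh.aestronglyMeasurable 1 ?_
      exact Eventually.of_forall (fun x => by simpa using hb x)
    have h6 := hw2 (hhL.toLp h)
    have h7 : ∀ n, (inner ℝ ((hL n).toLp (a n)) (hhL.toLp h) : ℝ) = ∫ x, a n x * h x ∂m := by
      intro n
      rw [L2.inner_def]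
      refine integral_congr_ae ?_
      filter_upwards [(hL n).coeFn_toLp, hhL.coeFn_toLp] with x hx1 hx2
      rw [hx1, hx2]
      simp [mul_comm]
    have h8 : (inner ℝ w (hhL.toLp h) : ℝ) = ∫ x, g x * h x ∂m := by
      rw [L2.inner_def]
      refine integral_congr_ae ?_
      filter_upwards [hgw, hhL.coeFn_toLp] with x hx1 hx2
      rw [← hx1, hx2]
      simp [mul_comm]
    rw [h8] at h6
    exact h6.congr h7

/-- splitting an integral over cells -/
theorem cellsum {α : Type*} [MeasurableSpace α] (μ : Measure α) (t : α → ℝ) (ht : Measurable t)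
    (c : ℕ → ℝ) (hc : Monotone c) (φ : α → ℝ≥0∞) (j : ℕ) :
    ∫⁻ s in {s | c 0 < t s ∧ t s ≤ c j}, φ s ∂μ =
      ∑ k ∈ Finset.range j, ∫⁻ s in {s | c k < t s ∧ t s ≤ c (k + 1)}, φ s ∂μ := by
  induction j with
  | zero =>
    have : {s | c 0 < t s ∧ t s ≤ c 0} = (∅ : Set α) := by
      ext s; simp
    rw [this]; simp
  | succ j ih =>
    rw [Finset.sum_range_succ, ← ih]
    have hu : {s | c 0 < t s ∧ t s ≤ c (j + 1)} =
        {s | c 0 < t s ∧ t s ≤ c j} ∪ {s | c j < t s ∧ t s ≤ c (j + 1)} := by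
      ext s
      simp only [mem_ofPred_eq, mem_union]
      have h1 : c 0 ≤ c j := hc (Nat.zero_le _)
      have h2 : c j ≤ c (j + 1) := hc (Nat.le_succ _)
      constructor
      · rintro ⟨h3, h4⟩
        rcases le_or_gt (t s) (c j) with h5 | h5
        · exact Or.inl ⟨h3, h5⟩
        · exact Or.inr ⟨h5, h4⟩
      · rintro (⟨h3, h4⟩ | ⟨h3, h4⟩)
        · exact ⟨h3, h4.trans h2⟩
        · exact ⟨lt_of_le_of_lt h1 h3, h4⟩
    rw [hu, lintegral_union]
    · exact (measurableSet_lt measurable_const ht).inter (measurableSet_le ht measurable_const)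
    · rw [Set.disjoint_left]
      rintro s ⟨_, h4⟩ ⟨h5, _⟩
      exact absurd h4 (not_le.2 h5)

/-- mass of `(a, b]` -/
noncomputable def ms {X : Type} (l : X × I → ℝ≥0∞) (a b : ℝ) (x : X) : ℝ≥0∞ :=
  ∫⁻ s in {s : I | a < (s : ℝ) ∧ (s : ℝ) ≤ b}, l (x, s)

theorem cell_meas (a b : ℝ) : MeasurableSet {s : I | a < (s : ℝ) ∧ (s : ℝ) ≤ b} :=
  (measurableSet_lt measurable_const measurable_subtype_coe).inter
    (measurableSet_le measurable_subtype_coe measurable_const)

section ms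

variable {X : Type} [MeasurableSpace X] {l : X × I → ℝ≥0∞}

theorem ms_meas (hl : Measurable l) (a b : ℝ) : Measurable (ms l a b) := by
  unfold ms
  exact Measurable.lintegral_prod_right' (ν := volume.restrict _) hl

theorem ms_le (a b : ℝ) (x : X) : ms l a b x ≤ ∫⁻ s, l (x, s) :=
  setLIntegral_le_lintegral _ _

theorem ms_add (a b c : ℝ) (hab : a ≤ b) (hbc : b ≤ c) (x : X) :
    ms l a c x = ms l a b x + ms l b c x := by
  unfold ms
  rw [← lintegral_union (cell_meas b c)]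
  · congr 2
    ext s
    simp only [mem_ofPred_eq, mem_union]
    constructor
    · rintro ⟨h3, h4⟩
      rcases le_or_gt (s : ℝ) b with h5 | h5
      · exact Or.inl ⟨h3, h5⟩
      · exact Or.inr ⟨h5, h4⟩
    · rintro (⟨h3, h4⟩ | ⟨h3, h4⟩)
      · exact ⟨h3, h4.trans hbc⟩
      · exact ⟨lt_of_le_of_lt hab h3, h4⟩
  · rw [Set.disjoint_left]
    rintro s ⟨_, h4⟩ ⟨h5, _⟩
    exact absurd h4 (not_le.2 h5)

theorem ms_neg (b : ℝ) (hb : b ≤ 0) (x : X) : ms l 0 b x = 0 := by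
  unfold ms
  have : {s : I | (0:ℝ) < (s : ℝ) ∧ (s : ℝ) ≤ b} = ∅ := by
    ext s
    simp only [mem_ofPred_eq, mem_empty_iff_false, iff_false, not_and, not_le]
    intro h
    linarith
  rw [this]; simp

theorem setpos_ae : ({s : I | (0:ℝ) < (s : ℝ) ∧ (s : ℝ) ≤ 1} : Set I) =ᵐ[volume] (univ : Set I) := by
  have h0 : ∀ᵐ s : I, s ≠ 0 := by
    rw [ae_iff]
    simp
  filter_upwards [h0] with s hs
  have h1 : (0:ℝ) < s := by
    have := s.2.1
    rcases this.lt_or_eq with h | h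
    · exact h
    · exact absurd (Subtype.ext h.symm) hs
  have h2 : (s:ℝ) ≤ 1 := s.2.2
  simp only [eq_iff_iff]
  exact ⟨fun _ => trivial, fun _ => ⟨h1, h2⟩⟩

theorem ms_one (x : X) : ms l 0 1 x = ∫⁻ s, l (x, s) := by
  unfold ms
  rw [setLIntegral_congr setpos_ae, setLIntegral_univ]

end ms

/-- weak limits of the distribution functions, along an ultrafilter -/
theorem cdfLim {X : Type} [MeasurableSpace X] (m : Measure X) [IsProbabilityMeasure m]
    (𝒰 : Ultrafilter ℕ) (lam : ℕ → X × I → ℝ≥0∞) (K : ℝ≥0) (hm : ∀ n, Measurable (lam n))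
    (hK : ∀ n, ∫⁻ x, (∫⁻ s, lam n (x, s)) ^ 2 ∂m ≤ K)
    (hfin : ∀ n x, ∫⁻ s, lam n (x, s) < ∞) :
    ∃ F : ℚ → X → ℝ, (∀ q, Measurable (F q)) ∧ (∀ q, Integrable (F q) m) ∧
      (∀ x, Monotone (fun q => F q x)) ∧ (∀ x, F 0 x = 0) ∧
      ∫⁻ x, ENNReal.ofReal (F 1 x) ^ 2 ∂m ≤ K ∧
      ∀ (q : ℚ) (h : X → ℝ), Measurable h → (∀ x, |h x| ≤ 1) →
        Tendsto (fun n => ∫ x, (ms (lam n) 0 q x).toReal * h x ∂m) (𝒰 : Filter ℕ)
          (𝓝 (∫ x, F q x * h x ∂m)) := by
  have hmsfin : ∀ n (a b : ℝ) x, ms (lam n) a b x < ∞ := fun n a b x =>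
    lt_of_le_of_lt (ms_le a b x) (hfin n x)
  have hLm : ∀ n (q : ℚ), Measurable (fun x => (ms (lam n) 0 q x).toReal) := fun n q =>
    (ms_meas (hm n) 0 q).ennreal_toReal
  have hLK : ∀ (q : ℚ) n, ∫⁻ x, ‖(ms (lam n) 0 q x).toReal‖ₑ ^ 2 ∂m ≤ K := by
    intro q n
    refine le_trans (lintegral_mono (fun x => ?_)) (hK n)
    have h1 : ‖(ms (lam n) 0 q x).toReal‖ₑ = ms (lam n) 0 q x := by
      rw [Real.enorm_of_nonneg ENNReal.toReal_nonneg, ENNReal.ofReal_toReal (hmsfin n _ _ x).ne]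
    rw [h1]
    gcongr
    exact ms_le _ _ _
  have hLint : ∀ n (q : ℚ), Integrable (fun x => (ms (lam n) 0 q x).toReal) m := by
    intro n q
    have hL : MemLp (fun x => (ms (lam n) 0 q x).toReal) 2 m := by
      refine ⟨(hLm n q).aestronglyMeasurable, ?_⟩
      rw [eLpNorm_lt_top_iff_lintegral_rpow_enorm_lt_top (by norm_num) (by norm_num)]
      simp only [ENNReal.toReal_ofNat, ENNReal.rpow_ofNat]
      exact lt_of_le_of_lt (hLK q n) ENNReal.coe_lt_top
    exact hL.integrable (by norm_num)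
  have hex : ∀ q : ℚ, ∃ g : X → ℝ, Measurable g ∧ Integrable g m ∧ ∫⁻ x, ‖g x‖ₑ ^ 2 ∂m ≤ K ∧
      ∀ h : X → ℝ, Measurable h → (∀ x, |h x| ≤ 1) →
        Tendsto (fun n => ∫ x, (ms (lam n) 0 q x).toReal * h x ∂m) (𝒰 : Filter ℕ)
          (𝓝 (∫ x, g x * h x ∂m)) := fun q =>
    weakL2 m 𝒰 (fun n x => (ms (lam n) 0 q x).toReal) (fun n => hLm n q) K (hLK q)
  choose g hg1 hg2 hg3 hg4 using hex
  -- set integrals
  have hset : ∀ (q : ℚ) (A : Set X), MeasurableSet A →
      Tendsto (fun n => ∫ x in A, (ms (lam n) 0 q x).toReal ∂m) (𝒰 : Filter ℕ)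
          (𝓝 (∫ x in A, g q x ∂m)) := by
    intro q A hA
    have h1 := hg4 q (A.indicator (fun _ => 1)) (measurable_const.indicator hA) (by
      intro x
      by_cases hx : x ∈ A
      · simp [hx]
      · simp [hx])
    have h2 : ∀ f : X → ℝ, ∫ x, f x * A.indicator (fun _ => (1:ℝ)) x ∂m = ∫ x in A, f x ∂m := by
      intro f
      rw [← integral_indicator hA]
      congr 1
      ext x
      by_cases hx : x ∈ A
      · simp [hx]
      · simp [hx]
    rw [h2] at h1
    exact h1.congr (fun n => h2 _)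
  have hmono : ∀ q q' : ℚ, q ≤ q' → g q ≤ᵐ[m] g q' := by
    intro q q' hqq
    refine ae_le_of_forall_setIntegral_le (hg2 q) (hg2 q') (fun A hA _ => ?_)
    refine le_of_tendsto_of_tendsto' (hset q A hA) (hset q' A hA) (fun n => ?_)
    refine setIntegral_mono (hLint n q).integrableOn (hLint n q').integrableOn (fun x => ?_)
    refine ENNReal.toReal_mono (hmsfin n _ _ x).ne ?_
    unfold ms
    refine lintegral_mono_set ?_
    intro s hs
    exact ⟨hs.1, hs.2.trans (by exact_mod_cast hqq)⟩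
  have hzero : g 0 =ᵐ[m] 0 := by
    have hz : ∀ A, MeasurableSet A → ∫ x in A, g 0 x ∂m = 0 := by
      intro A hA
      refine tendsto_nhds_unique (hset 0 A hA) ?_
      refine tendsto_const_nhds.congr (fun n => ?_)
      have : ∀ x, (ms (lam n) 0 ((0:ℚ):ℝ) x).toReal = 0 := by
        intro x
        rw [ms_neg _ (by simp)]
        rfl
      simp only [this]
      simp
    exact Integrable.ae_eq_zero_of_forall_setIntegral_eq_zero (hg2 0) (fun A hA _ => hz A hA)
  let S0 : Set X := {x | (∀ q q' : ℚ, q ≤ q' → g q x ≤ g q' x) ∧ g 0 x = 0}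
  have hS0 : MeasurableSet S0 := by
    have h1 : MeasurableSet {x | ∀ q q' : ℚ, q ≤ q' → g q x ≤ g q' x} := by
      have : {x | ∀ q q' : ℚ, q ≤ q' → g q x ≤ g q' x} =
          ⋂ q : ℚ, ⋂ q' : ℚ, ⋂ _ : q ≤ q', {x | g q x ≤ g q' x} := by
        ext x; simp
      rw [this]
      refine MeasurableSet.iInter fun q => MeasurableSet.iInter fun q' =>
        MeasurableSet.iInter fun _ => measurableSet_le (hg1 q) (hg1 q')
    have h2 : MeasurableSet {x | g 0 x = 0} := measurableSet_eq_fun (hg1 0) measurable_const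
    exact h1.inter h2
  have hS0ae : ∀ᵐ x ∂m, x ∈ S0 := by
    have h1 : ∀ᵐ x ∂m, ∀ q q' : ℚ, q ≤ q' → g q x ≤ g q' x := by
      rw [ae_all_iff]; intro q
      rw [ae_all_iff]; intro q'
      by_cases hqq : q ≤ q'
      · filter_upwards [hmono q q' hqq] with x hx _ using hx
      · exact Eventually.of_forall (fun x h => absurd h hqq)
    filter_upwards [h1, hzero] with x hx1 hx2
    exact ⟨hx1, hx2⟩
  refine ⟨fun q => S0.indicator (g q), fun q => (hg1 q).indicator hS0,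
    fun q => (hg2 q).indicator hS0, ?_, ?_, ?_, ?_⟩
  · intro x q q' hqq
    by_cases hx : x ∈ S0
    · simp only [indicator_of_mem hx]
      exact hx.1 q q' hqq
    · simp only [indicator_of_notMem hx]
      exact le_rfl
  · intro x
    by_cases hx : x ∈ S0
    · simp only [indicator_of_mem hx]
      exact hx.2
    · simp only [indicator_of_notMem hx]
  · refine le_trans (lintegral_mono (fun x => ?_)) (hg3 1)
    by_cases hx : x ∈ S0
    · simp only [indicator_of_mem hx]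
      gcongr
      exact Real.ofReal_le_enorm _
    · simp only [indicator_of_notMem hx]
      simp
  · intro q h hh hb
    have h1 := hg4 q h hh hb
    have h2 : ∫ x, S0.indicator (g q) x * h x ∂m = ∫ x, g q x * h x ∂m := by
      refine integral_congr_ae ?_
      filter_upwards [hS0ae] with x hx
      rw [indicator_of_mem hx]
    rw [h2]
    exact h1

/-- quantiles of a monotone family -/
theorem quant {X : Type} [MeasurableSpace X] (F : ℚ → X → ℝ) (hF : ∀ q, Measurable (F q))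
    (hmono : ∀ x, Monotone (fun q => F q x)) (h0 : ∀ x, F 0 x = 0) :
    ∃ τ : X × I → I, Measurable τ ∧
      (∀ x (u : I) (q : ℚ), F q x < (u : ℝ) * F 1 x → 0 ≤ q → (q : ℝ) ≤ τ (x, u)) ∧
      (∀ x (u : I) (q : ℚ), (u : ℝ) * F 1 x ≤ F q x → 0 ≤ q → (τ (x, u) : ℝ) ≤ q) := by
  classical
  let τ : X × I → I := fun p => ⨆ q : ℚ,
    if F q p.1 < (p.2 : ℝ) * F 1 p.1 then Set.projIcc (0:ℝ) 1 zero_le_one (q : ℝ) else 0
  refine ⟨τ, ?_, ?_, ?_⟩
  · refine Measurable.iSup (fun q => ?_)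
    refine Measurable.ite ?_ measurable_const measurable_const
    refine measurableSet_lt ((hF q).comp measurable_fst) ?_
    exact (measurable_subtype_coe.comp measurable_snd).mul ((hF 1).comp measurable_fst)
  · intro x u q hq hq0
    have h1 : Set.projIcc (0:ℝ) 1 zero_le_one (q : ℝ) ≤ τ (x, u) := by
      have := le_iSup (fun q : ℚ => if F q x < (u : ℝ) * F 1 x then
        Set.projIcc (0:ℝ) 1 zero_le_one (q : ℝ) else (0 : I)) q
      simp only [hq, if_true] at this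
      exact this
    have hq1 : q ≤ 1 := by
      by_contra hcon
      push Not at hcon
      have h2 : F 1 x ≤ F q x := hmono x hcon.le
      have h3 : 0 ≤ F 1 x := by rw [← h0 x]; exact hmono x zero_le_one
      have h4 : (u : ℝ) * F 1 x ≤ 1 * F 1 x := mul_le_mul_of_nonneg_right u.2.2 h3
      linarith
    have h5 : ((Set.projIcc (0:ℝ) 1 zero_le_one (q : ℝ) : I) : ℝ) = q := by
      rw [Set.projIcc_of_mem zero_le_one (x := (q:ℝ)) ⟨by exact_mod_cast hq0, by exact_mod_cast hq1⟩]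
    rw [← h5]
    exact h1
  · intro x u q hq hq0
    have h1 : τ (x, u) ≤ Set.projIcc (0:ℝ) 1 zero_le_one (q : ℝ) := by
      refine iSup_le (fun q' => ?_)
      by_cases hc : F q' x < (u : ℝ) * F 1 x
      · simp only [hc, if_true]
        have : q' ≤ q := by
          by_contra hcon
          push Not at hcon
          have := hmono x hcon.le
          simp only at this
          linarith
        exact Set.monotone_projIcc zero_le_one (by exact_mod_cast this)
      · simp only [hc, if_false]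
        exact unitInterval.nonneg'
    have h2 : ((Set.projIcc (0:ℝ) 1 zero_le_one (q : ℝ) : I) : ℝ) ≤ q := by
      rw [Set.coe_projIcc]
      have : (0:ℝ) ≤ q := by exact_mod_cast hq0
      exact max_le this (min_le_right _ _)
    exact le_trans h1 h2

/-- the modulus of continuity -/
theorem osc {X : Type} [MeasurableSpace X] (f : X × I → ℝ≥0) (hf : Measurable f)
    (hf1 : ∀ p, f p ≤ 1) (hfc : ∀ x, Continuous fun s => f (x, s)) :
    ∃ w : ℕ → X → ℝ≥0∞, (∀ N, Measurable (w N)) ∧ (∀ N x, w N x ≤ 1) ∧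
      (∀ x, Tendsto (fun N => w N x) atTop (𝓝 0)) ∧
      ∀ (N : ℕ) x (s s' : I), 0 < N → |(s : ℝ) - s'| ≤ 1 / (N : ℝ) →
        (f (x, s) : ℝ≥0∞) ≤ f (x, s') + w N x := by
  classical
  let d : ℕ → I := TopologicalSpace.denseSeq I
  let w : ℕ → X → ℝ≥0∞ := fun N x => ⨆ a : ℕ, ⨆ b : ℕ,
    if |(d a : ℝ) - d b| < 2 / (N : ℝ) then ((f (x, d a) : ℝ≥0∞) - f (x, d b)) else 0
  refine ⟨w, ?_, ?_, ?_, ?_⟩
  · intro N
    refine Measurable.iSup (fun a => Measurable.iSup (fun b => ?_))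
    by_cases h : |(d a : ℝ) - d b| < 2 / (N : ℝ)
    · simp only [h, if_true]
      have h1 : ∀ c : I, Measurable fun x => (f (x, c) : ℝ≥0∞) := fun c =>
        (hf.comp (measurable_id.prodMk measurable_const)).coe_nnreal_ennreal
      exact (h1 _).sub (h1 _)
    · simp only [h, if_false]
      exact measurable_const
  · intro N x
    refine iSup_le (fun a => iSup_le (fun b => ?_))
    split_ifs
    · refine tsub_le_self.trans ?_
      exact_mod_cast hf1 _
    · exact zero_le_one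
  · intro x
    rw [ENNReal.tendsto_atTop_zero]
    intro ε hε
    -- uniform continuity
    have huc : UniformContinuous fun s => f (x, s) :=
      CompactSpace.uniformContinuous_of_continuous (hfc x)
    rcases eq_or_ne ε ∞ with rfl | hεt
    · exact ⟨0, fun n _ => le_top⟩
    have hεr : 0 < ε.toReal := ENNReal.toReal_pos hε.ne' hεt
    obtain ⟨δ, hδ, hδ2⟩ := Metric.uniformContinuous_iff.1 huc ε.toReal hεr
    obtain ⟨N, hN⟩ := exists_nat_gt (2 / δ)
    refine ⟨N, fun n hn => ?_⟩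
    refine iSup_le (fun a => iSup_le (fun b => ?_))
    split_ifs with h
    · have hNn : (2:ℝ) / δ < n := lt_of_lt_of_le hN (by exact_mod_cast hn)
      have hn0 : (0:ℝ) < n := lt_trans (by positivity) hNn
      have h3 : 2 / (n:ℝ) < δ := by
        rw [div_lt_iff₀ hn0]
        rw [div_lt_iff₀ hδ] at hNn
        linarith
      have h4 : dist (d a) (d b) < δ := by
        rw [Subtype.dist_eq, Real.dist_eq]
        exact h.trans h3
      have h5 := hδ2 h4
      rw [NNReal.dist_eq] at h5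
      have h6 : ((f (x, d a) : ℝ≥0) : ℝ) - f (x, d b) ≤ ε.toReal :=
        (le_abs_self _).trans h5.le
      rw [tsub_le_iff_right]
      have h7 : f (x, d a) ≤ ε.toNNReal + f (x, d b) := by
        rw [← NNReal.coe_le_coe, NNReal.coe_add]
        have : ((ε.toNNReal : ℝ≥0) : ℝ) = ε.toReal := rfl
        rw [this]; linarith
      calc (f (x, d a) : ℝ≥0∞) ≤ ((ε.toNNReal + f (x, d b) : ℝ≥0) : ℝ≥0∞) := by exact_mod_cast h7
        _ = ε + f (x, d b) := by rw [ENNReal.coe_add, ENNReal.coe_toNNReal hεt]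
    · exact hε.le
  · intro N x s s' hN hss
    have hN' : (0:ℝ) < N := by exact_mod_cast hN
    have hdense : Dense (range (fun p : ℕ × ℕ => (d p.1, d p.2))) := by
      have := (TopologicalSpace.denseRange_denseSeq I).prodMap (TopologicalSpace.denseRange_denseSeq I)
      exact this
    have hopen : IsOpen {p : I × I | |(p.1 : ℝ) - p.2| < 2 / (N : ℝ)} := by
      refine isOpen_lt ?_ continuous_const
      fun_prop
    have hcl : IsClosed {p : I × I | (f (x, p.1) : ℝ≥0∞) ≤ f (x, p.2) + w N x} := by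
      have hc : Continuous fun s => (f (x, s) : ℝ≥0∞) := ENNReal.continuous_coe.comp (hfc x)
      refine isClosed_le (hc.comp continuous_fst) ?_
      exact (hc.comp continuous_snd).add continuous_const
    have hsub : {p : I × I | |(p.1 : ℝ) - p.2| < 2 / (N : ℝ)} ⊆
        {p : I × I | (f (x, p.1) : ℝ≥0∞) ≤ f (x, p.2) + w N x} := by
      refine (hdense.open_subset_closure_inter hopen).trans ?_
      refine closure_minimal ?_ hcl
      rintro p ⟨hp1, ⟨⟨a, b⟩, rfl⟩⟩
      have h1 : (if |(d a : ℝ) - d b| < 2 / (N : ℝ) then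
          ((f (x, d a) : ℝ≥0∞) - f (x, d b)) else 0) ≤ w N x :=
        le_trans (le_iSup (fun b : ℕ => if |(d a : ℝ) - d b| < 2 / (N : ℝ) then
          ((f (x, d a) : ℝ≥0∞) - f (x, d b)) else 0) b)
          (le_iSup (fun a : ℕ => ⨆ b : ℕ, if |(d a : ℝ) - d b| < 2 / (N : ℝ) then
          ((f (x, d a) : ℝ≥0∞) - f (x, d b)) else 0) a)
      have hp2 : |(d a : ℝ) - d b| < 2 / (N : ℝ) := hp1
      rw [if_pos hp2, tsub_le_iff_left] at h1
      exact h1
    have hmem : (s, s') ∈ {p : I × I | |(p.1 : ℝ) - p.2| < 2 / (N : ℝ)} := by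
      refine lt_of_le_of_lt hss ?_
      gcongr
      norm_num
    exact hsub hmem

/-- one fixed point `x`: quantile integral -/
theorem quantInt (M : ℝ) (hM : 0 < M) (a b : ℝ) (ha : 0 ≤ a) (hab : a ≤ b) (hb : b ≤ M) :
    ENNReal.ofReal M * volume {u : I | a < (u : ℝ) * M ∧ (u : ℝ) * M ≤ b} =
      ENNReal.ofReal (b - a) := by
  have ha' : a / M ∈ I := ⟨by positivity, by rw [div_le_one hM]; linarith⟩
  have hb' : b / M ∈ I := ⟨by have := ha.trans hab; positivity, by rw [div_le_one hM]; exact hb⟩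
  have h1 : {u : I | a < (u : ℝ) * M ∧ (u : ℝ) * M ≤ b} = Ioc (⟨a / M, ha'⟩ : I) ⟨b / M, hb'⟩ := by
    ext u
    simp only [mem_ofPred_eq, mem_Ioc]
    rw [← Subtype.coe_lt_coe, ← Subtype.coe_le_coe]
    simp only
    rw [div_lt_iff₀ hM, le_div_iff₀ hM]
  rw [h1, unitInterval.volume_Ioc, ← ENNReal.ofReal_mul hM.le]
  congr 1
  simp only
  field_simp

/-- Riemann sums over cells -/
theorem cellEst {α : Type*} [MeasurableSpace α] (ν : Measure α) (t : α → ℝ) (ht : Measurable t)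
    (c : ℕ → ℝ) (hc : Monotone c) (N : ℕ) (hfull : ∀ᵐ s ∂ν, c 0 < t s ∧ t s ≤ c N)
    (φ : α → ℝ≥0∞) (v : ℕ → ℝ≥0∞) (w : ℝ≥0∞)
    (h1 : ∀ k < N, ∀ s, c k < t s → t s ≤ c (k + 1) → φ s ≤ v k + w ∧ v k ≤ φ s + w) :
    ∫⁻ s, φ s ∂ν ≤ ∑ k ∈ Finset.range N, v k * ν {s | c k < t s ∧ t s ≤ c (k + 1)} + w * ν univ ∧
      ∑ k ∈ Finset.range N, v k * ν {s | c k < t s ∧ t s ≤ c (k + 1)} ≤
        ∫⁻ s, φ s ∂ν + w * ν univ := by
  have hcm : ∀ k, MeasurableSet {s | c k < t s ∧ t s ≤ c (k + 1)} := fun k =>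
    (measurableSet_lt measurable_const ht).inter (measurableSet_le ht measurable_const)
  have hsum : ∀ ψ : α → ℝ≥0∞, ∫⁻ s, ψ s ∂ν =
      ∑ k ∈ Finset.range N, ∫⁻ s in {s | c k < t s ∧ t s ≤ c (k + 1)}, ψ s ∂ν := by
    intro ψ
    rw [← cellsum ν t ht c hc ψ N, ← setLIntegral_univ]
    refine (setLIntegral_congr ?_).symm
    filter_upwards [hfull] with s hs
    simp only [eq_iff_iff]
    exact ⟨fun _ => trivial, fun _ => hs⟩
  have huniv : ν univ = ∑ k ∈ Finset.range N, ν {s | c k < t s ∧ t s ≤ c (k + 1)} := by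
    have := hsum (fun _ => 1)
    simpa using this
  constructor
  · rw [hsum φ, huniv, Finset.mul_sum, ← Finset.sum_add_distrib]
    refine Finset.sum_le_sum (fun k hk => ?_)
    rw [← add_mul]
    calc ∫⁻ s in {s | c k < t s ∧ t s ≤ c (k + 1)}, φ s ∂ν
        ≤ ∫⁻ s in {s | c k < t s ∧ t s ≤ c (k + 1)}, (v k + w) ∂ν := by
          refine setLIntegral_mono measurable_const (fun s hs => ?_)
          exact (h1 k (Finset.mem_range.1 hk) s hs.1 hs.2).1
      _ = (v k + w) * ν {s | c k < t s ∧ t s ≤ c (k + 1)} := by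
          rw [setLIntegral_const]
  · rw [hsum φ, huniv, Finset.mul_sum, ← Finset.sum_add_distrib]
    refine Finset.sum_le_sum (fun k hk => ?_)
    calc v k * ν {s | c k < t s ∧ t s ≤ c (k + 1)}
        = ∫⁻ s in {s | c k < t s ∧ t s ≤ c (k + 1)}, v k ∂ν := by
          rw [setLIntegral_const]
      _ ≤ ∫⁻ s in {s | c k < t s ∧ t s ≤ c (k + 1)}, (φ s + w) ∂ν := by
          refine setLIntegral_mono' (hcm k) (fun s hs => ?_)
          exact (h1 k (Finset.mem_range.1 hk) s hs.1 hs.2).2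
      _ = _ := by
          rw [lintegral_add_right _ measurable_const, setLIntegral_const]

/-- the grid points -/
noncomputable def gp (N k : ℕ) : I := Set.projIcc (0:ℝ) 1 zero_le_one ((k : ℝ) / N)

theorem gp_coe (N k : ℕ) (hN : 0 < N) (hk : k ≤ N) : ((gp N k : I) : ℝ) = (k : ℝ) / N := by
  have hN' : (0:ℝ) < N := by exact_mod_cast hN
  unfold gp
  rw [Set.projIcc_of_mem zero_le_one (x := (k:ℝ) / N)
    ⟨by positivity, by rw [div_le_one hN']; exact_mod_cast hk⟩]

/-- the estimate for the weights `lam` -/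
theorem lamEst {X : Type} [MeasurableSpace X] (l : X × I → ℝ≥0∞) (hl : Measurable l)
    (f : X × I → ℝ≥0) (hf : Measurable f) (w : ℕ → X → ℝ≥0∞)
    (hw : ∀ (N : ℕ) x (s s' : I), 0 < N → |(s : ℝ) - s'| ≤ 1 / (N : ℝ) →
        (f (x, s) : ℝ≥0∞) ≤ f (x, s') + w N x) (N : ℕ) (hN : 0 < N) (x : X) :
    ∫⁻ s, (f (x, s) : ℝ≥0∞) * l (x, s) ≤ ∑ k ∈ Finset.range N, (f (x, gp N k) : ℝ≥0∞) *
        ms l ((k : ℝ) / N) (((k : ℝ) + 1) / N) x + w N x * ∫⁻ s, l (x, s) ∧
      ∑ k ∈ Finset.range N, (f (x, gp N k) : ℝ≥0∞) *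
        ms l ((k : ℝ) / N) (((k : ℝ) + 1) / N) x ≤
        (∫⁻ s, (f (x, s) : ℝ≥0∞) * l (x, s)) + w N x * ∫⁻ s, l (x, s) := by
  have hN' : (0:ℝ) < N := by exact_mod_cast hN
  have hlx : Measurable fun s => l (x, s) := hl.comp (measurable_const.prodMk measurable_id)
  have hfx : Measurable fun s => (f (x, s) : ℝ≥0∞) :=
    (hf.comp (measurable_const.prodMk measurable_id)).coe_nnreal_ennreal
  have hmono : Monotone fun k : ℕ => (k : ℝ) / N := by
    intro a b hab
    have : (a:ℝ) ≤ b := by exact_mod_cast hab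
    simp only
    gcongr
  have h := cellEst ((volume : Measure I).withDensity fun s => l (x, s)) (fun s => (s : ℝ))
    measurable_subtype_coe (fun k => (k : ℝ) / N) hmono N (by
      refine (withDensity_absolutelyContinuous _ _).ae_le ?_
      have h1 : ∀ᵐ s : I, s ≠ 0 := by
        rw [ae_iff]; simp
      filter_upwards [h1] with s hs
      have h2 : (0:ℝ) < s := by
        have := s.2.1
        rcases this.lt_or_eq with h | h
        · exact h
        · exact absurd (Subtype.ext h.symm) hs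
      refine ⟨by simpa using h2, ?_⟩
      rw [div_self hN'.ne']
      exact s.2.2) (fun s => (f (x, s) : ℝ≥0∞)) (fun k => (f (x, gp N k) : ℝ≥0∞)) (w N x) (by
      intro k hk s hs1 hs2
      have hg := gp_coe N k hN hk.le
      have habs : |(s : ℝ) - gp N k| ≤ 1 / (N : ℝ) := by
        rw [hg, abs_of_nonneg (by linarith)]
        have : ((k + 1 : ℕ) : ℝ) / N = (k : ℝ) / N + 1 / N := by push_cast; ring
        rw [this] at hs2
        linarith
      exact ⟨hw N x s (gp N k) hN habs, hw N x (gp N k) s hN (by rw [abs_sub_comm]; exact habs)⟩)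
  have hcell : ∀ k : ℕ, ((volume : Measure I).withDensity fun s => l (x, s))
      {s | (k : ℝ) / N < (s : ℝ) ∧ (s : ℝ) ≤ ((k + 1 : ℕ) : ℝ) / N} =
        ms l ((k : ℝ) / N) (((k : ℝ) + 1) / N) x := by
    intro k
    rw [withDensity_apply _ (cell_meas _ _)]
    unfold ms
    push_cast
    rfl
  have huniv : ((volume : Measure I).withDensity fun s => l (x, s)) univ = ∫⁻ s, l (x, s) := by
    rw [withDensity_apply _ MeasurableSet.univ, setLIntegral_univ]
  have hint : ∫⁻ s, (f (x, s) : ℝ≥0∞) ∂((volume : Measure I).withDensity fun s => l (x, s)) =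
      ∫⁻ s, (f (x, s) : ℝ≥0∞) * l (x, s) := by
    rw [lintegral_withDensity_eq_lintegral_mul _ hlx hfx]
    refine lintegral_congr (fun s => ?_)
    simp [mul_comm]
  simp only [hcell, huniv, hint] at h
  exact h

/-- the estimate for the quantiles -/
theorem quaEst {X : Type} [MeasurableSpace X] (F : ℚ → X → ℝ)
    (hmono : ∀ x, Monotone (fun q => F q x)) (h0 : ∀ x, F 0 x = 0) (τ : X × I → I)
    (hτ1 : ∀ x (u : I) (q : ℚ), F q x < (u : ℝ) * F 1 x → 0 ≤ q → (q : ℝ) ≤ τ (x, u))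
    (hτ2 : ∀ x (u : I) (q : ℚ), (u : ℝ) * F 1 x ≤ F q x → 0 ≤ q → (τ (x, u) : ℝ) ≤ q)
    (f : X × I → ℝ≥0) (w : ℕ → X → ℝ≥0∞)
    (hw : ∀ (N : ℕ) x (s s' : I), 0 < N → |(s : ℝ) - s'| ≤ 1 / (N : ℝ) →
        (f (x, s) : ℝ≥0∞) ≤ f (x, s') + w N x) (N : ℕ) (hN : 0 < N) (x : X) :
    ENNReal.ofReal (F 1 x) * ∫⁻ u, (f (x, τ (x, u)) : ℝ≥0∞) ≤
        ∑ k ∈ Finset.range N, (f (x, gp N k) : ℝ≥0∞) *
          ENNReal.ofReal (F (((k : ℚ) + 1) / N) x - F ((k : ℚ) / N) x) +
            w N x * ENNReal.ofReal (F 1 x) ∧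
      ∑ k ∈ Finset.range N, (f (x, gp N k) : ℝ≥0∞) *
          ENNReal.ofReal (F (((k : ℚ) + 1) / N) x - F ((k : ℚ) / N) x) ≤
        (ENNReal.ofReal (F 1 x) * ∫⁻ u, (f (x, τ (x, u)) : ℝ≥0∞)) +
          w N x * ENNReal.ofReal (F 1 x) := by
  have hNR : (0:ℝ) < N := by exact_mod_cast hN
  have hNQ : (0:ℚ) < N := by exact_mod_cast hN
  have hM0 : 0 ≤ F 1 x := by rw [← h0 x]; exact hmono x zero_le_one
  have hcm : Monotone fun k : ℕ => F ((k : ℚ) / N) x := by
    intro a b hab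
    refine hmono x ?_
    have : (a:ℚ) ≤ b := by exact_mod_cast hab
    gcongr
  have hc0 : F (((0:ℕ) : ℚ) / N) x = 0 := by simp [h0]
  have hcN : F ((N : ℚ) / N) x = F 1 x := by rw [div_self hNQ.ne']
  have hck0 : ∀ k : ℕ, 0 ≤ F ((k : ℚ) / N) x := by
    intro k
    rw [← hc0]
    exact hcm (Nat.zero_le k)
  have hckN : ∀ k : ℕ, k ≤ N → F ((k : ℚ) / N) x ≤ F 1 x := by
    intro k hk
    rw [← hcN]
    exact hcm hk
  rcases hM0.eq_or_lt with hM | hM
  · have hz : ∀ k ∈ Finset.range N, (f (x, gp N k) : ℝ≥0∞) *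
          ENNReal.ofReal (F (((k : ℚ) + 1) / N) x - F ((k : ℚ) / N) x) = 0 := by
      intro k hk
      have hk' := Finset.mem_range.1 hk
      have h1 := hckN (k + 1) hk'
      have h2 := hck0 k
      push_cast at h1
      rw [ENNReal.ofReal_of_nonpos (by linarith), mul_zero]
    rw [Finset.sum_eq_zero hz, ← hM]
    simp
  · have h := cellEst (ENNReal.ofReal (F 1 x) • (volume : Measure I)) (fun u => (u : ℝ) * F 1 x)
      (measurable_subtype_coe.mul_const _) (fun k => F ((k : ℚ) / N) x) hcm N (by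
        refine (Measure.ae_smul_measure_le (μ := (volume : Measure I)) (ENNReal.ofReal (F 1 x))) ?_
        have h1 : ∀ᵐ s : I, s ≠ 0 := by
          rw [ae_iff]; simp
        filter_upwards [h1] with s hs
        have h2 : (0:ℝ) < s := by
          have := s.2.1
          rcases this.lt_or_eq with h | h
          · exact h
          · exact absurd (Subtype.ext h.symm) hs
        rw [hc0, hcN]
        refine ⟨by positivity, ?_⟩
        have := s.2.2
        nlinarith) (fun u => (f (x, τ (x, u)) : ℝ≥0∞)) (fun k => (f (x, gp N k) : ℝ≥0∞)) (w N x) (by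
        intro k hk u hu1 hu2
        have hg := gp_coe N k hN hk.le
        have h1 := hτ1 x u ((k : ℚ) / N) hu1 (by positivity)
        have h2 := hτ2 x u (((k + 1 : ℕ) : ℚ) / N) hu2 (by positivity)
        push_cast at h1 h2
        have habs : |(τ (x, u) : ℝ) - gp N k| ≤ 1 / (N : ℝ) := by
          rw [hg, abs_of_nonneg (by linarith)]
          have : ((k : ℝ) + 1) / N = (k : ℝ) / N + 1 / N := by ring
          rw [this] at h2
          linarith
        exact ⟨hw N x _ (gp N k) hN habs, hw N x (gp N k) _ hN (by rw [abs_sub_comm]; exact habs)⟩)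
    have hcell : ∀ k ∈ Finset.range N, (f (x, gp N k) : ℝ≥0∞) *
        (ENNReal.ofReal (F 1 x) • (volume : Measure I))
        {u | F ((k : ℚ) / N) x < (u : ℝ) * F 1 x ∧ (u : ℝ) * F 1 x ≤ F (((k + 1 : ℕ) : ℚ) / N) x} =
          (f (x, gp N k) : ℝ≥0∞) *
            ENNReal.ofReal (F (((k : ℚ) + 1) / N) x - F ((k : ℚ) / N) x) := by
      intro k hk
      have hk' := Finset.mem_range.1 hk
      rw [Measure.smul_apply, smul_eq_mul, quantInt (F 1 x) hM _ _ (hck0 k)
        (hcm (Nat.le_succ k)) (hckN (k + 1) hk')]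
      push_cast
      rfl
    rw [Finset.sum_congr rfl hcell, lintegral_smul_measure] at h
    simpa using h

/-- the theorem for weights of finite mass -/
theorem ymFin {X : Type} [MeasurableSpace X] (m : Measure X) [IsProbabilityMeasure m]
    (lam : ℕ → X × I → ℝ≥0∞) (K : ℝ≥0) (hm : ∀ n, Measurable (lam n))
    (hK : ∀ n, ∫⁻ x, (∫⁻ s, lam n (x, s)) ^ 2 ∂m ≤ K)
    (hfin : ∀ n x, ∫⁻ s, lam n (x, s) < ∞) :
    ∃ (G : X → ℝ≥0∞) (τ : X × I → I), Measurable G ∧ Measurable τ ∧ ∫⁻ x, G x ^ 2 ∂m ≤ K ∧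
      ∀ f : X × I → ℝ≥0, Measurable f → (∀ p, f p ≤ 1) → (∀ x, Continuous fun s => f (x, s)) →
        ∀ c : ℝ≥0∞, Tendsto (fun n => ∫⁻ x, (∫⁻ s, (f (x, s) : ℝ≥0∞) * lam n (x, s)) ∂m) atTop (𝓝 c) →
          ∫⁻ x, G x * (∫⁻ u, (f (x, τ (x, u)) : ℝ≥0∞)) ∂m = c := by
  obtain ⟨F, hF1, hF2, hF3, hF4, hF5, hF6⟩ := cdfLim m (hyperfilter ℕ) lam K hm hK hfin
  obtain ⟨τ, hτm, hτ1, hτ2⟩ := quant F hF1 hF3 hF4
  refine ⟨fun x => ENNReal.ofReal (F 1 x), τ, (hF1 1).ennreal_ofReal, hτm, hF5, ?_⟩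
  intro f hf hf1 hfc c hc
  obtain ⟨w, hw1, hw2, hw3, hw4⟩ := osc f hf hf1 hfc
  have hG1m : Measurable fun x => ENNReal.ofReal (F 1 x) := (hF1 1).ennreal_ofReal
  have hmass : ∀ n, Measurable fun x => ∫⁻ s, lam n (x, s) := fun n =>
    Measurable.lintegral_prod_right' (hm n)
  -- the error
  let δ : ℕ → ℝ≥0∞ := fun N => (∫⁻ x, w N x ^ (2:ℝ) ∂m) ^ (1 / (2:ℝ)) * (K : ℝ≥0∞) ^ (1 / (2:ℝ))
  have hCS : ∀ (N : ℕ) (g : X → ℝ≥0∞), Measurable g → ∫⁻ x, g x ^ 2 ∂m ≤ K →
      ∫⁻ x, w N x * g x ∂m ≤ δ N := by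
    intro N g hg hgK
    have h : ∫⁻ x, w N x * g x ∂m ≤ (∫⁻ x, w N x ^ (2:ℝ) ∂m) ^ (1 / (2:ℝ)) *
        (∫⁻ x, g x ^ (2:ℝ) ∂m) ^ (1 / (2:ℝ)) :=
      ENNReal.lintegral_mul_le_Lp_mul_Lq m (Real.HolderConjugate.two_two)
        (hw1 N).aemeasurable hg.aemeasurable
    refine h.trans ?_
    refine mul_le_mul' le_rfl ?_
    refine ENNReal.rpow_le_rpow ?_ (by norm_num)
    simpa only [ENNReal.rpow_ofNat] using hgK
  have hδ : Tendsto δ atTop (𝓝 0) := by
    have h1 : Tendsto (fun N => ∫⁻ x, w N x ^ (2:ℝ) ∂m) atTop (𝓝 0) := by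
      have h2 : Tendsto (fun N => ∫⁻ x, w N x ^ (2:ℝ) ∂m) atTop (𝓝 (∫⁻ _, 0 ∂m)) := by
        refine tendsto_lintegral_of_dominated_convergence (fun _ => 1)
          (fun N => (hw1 N).pow_const _) (fun N => ?_) (by simp) ?_
        · refine Eventually.of_forall (fun x => ?_)
          exact ENNReal.rpow_le_one (hw2 N x) (by norm_num)
        · refine Eventually.of_forall (fun x => ?_)
          have h3 := (ENNReal.continuous_rpow_const (y := 2)).tendsto (0:ℝ≥0∞)
          simp only [ENNReal.zero_rpow_of_pos (show (0:ℝ) < 2 by norm_num)] at h3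
          exact h3.comp (hw3 x)
      simpa using h2
    have h3 := (ENNReal.continuous_rpow_const (y := 1 / (2:ℝ))).tendsto (0:ℝ≥0∞)
    simp only [ENNReal.zero_rpow_of_pos (show (0:ℝ) < 1 / 2 by norm_num)] at h3
    have h4 := h3.comp h1
    have h5 := ENNReal.Tendsto.mul_const (b := (K : ℝ≥0∞) ^ (1 / (2:ℝ))) h4 (Or.inr (by
      exact ENNReal.rpow_ne_top_of_nonneg (by norm_num) ENNReal.coe_ne_top))
    rw [zero_mul] at h5
    exact h5
  -- the sums
  let Sn : ℕ → ℕ → ℝ≥0∞ := fun N n => ∫⁻ x, ∑ k ∈ Finset.range N, (f (x, gp N k) : ℝ≥0∞) *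
        ms (lam n) ((k : ℝ) / N) (((k : ℝ) + 1) / N) x ∂m
  let SS : ℕ → ℝ≥0∞ := fun N => ∫⁻ x, ∑ k ∈ Finset.range N, (f (x, gp N k) : ℝ≥0∞) *
          ENNReal.ofReal (F (((k : ℚ) + 1) / N) x - F ((k : ℚ) / N) x) ∂m
  let TT : ℝ≥0∞ := ∫⁻ x, ENNReal.ofReal (F 1 x) * (∫⁻ u, (f (x, τ (x, u)) : ℝ≥0∞)) ∂m
  have hfm : ∀ N k : ℕ, Measurable fun x => f (x, gp N k) := fun N k =>
    hf.comp (measurable_id.prodMk measurable_const)
  have hcellL : ∀ N n k : ℕ, Measurable fun x => (f (x, gp N k) : ℝ≥0∞) *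
        ms (lam n) ((k : ℝ) / N) (((k : ℝ) + 1) / N) x := fun N n k =>
    (hfm N k).coe_nnreal_ennreal.mul (ms_meas (hm n) _ _)
  have hcellF : ∀ N k : ℕ, Measurable fun x => (f (x, gp N k) : ℝ≥0∞) *
          ENNReal.ofReal (F (((k : ℚ) + 1) / N) x - F ((k : ℚ) / N) x) := fun N k =>
    (hfm N k).coe_nnreal_ennreal.mul ((hF1 _).sub (hF1 _)).ennreal_ofReal
  have hconv : ∀ N : ℕ, 0 < N →
      Tendsto (fun n => Sn N n) (hyperfilter ℕ : Filter ℕ) (𝓝 (SS N)) := by
    intro N hN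
    have hN' : (0:ℝ) < N := by exact_mod_cast hN
    have hNQ : (0:ℚ) < N := by exact_mod_cast hN
    have e1 : ∀ n, Sn N n = ∑ k ∈ Finset.range N, ∫⁻ x, (f (x, gp N k) : ℝ≥0∞) *
        ms (lam n) ((k : ℝ) / N) (((k : ℝ) + 1) / N) x ∂m := fun n =>
      lintegral_finsetSum _ (fun k _ => hcellL N n k)
    have e2 : SS N = ∑ k ∈ Finset.range N, ∫⁻ x, (f (x, gp N k) : ℝ≥0∞) *
          ENNReal.ofReal (F (((k : ℚ) + 1) / N) x - F ((k : ℚ) / N) x) ∂m :=
      lintegral_finsetSum _ (fun k _ => hcellF N k)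
    simp only [e1, e2]
    refine tendsto_finsetSum _ (fun k _ => ?_)
    have hq : ((k : ℚ) / N) ≤ (((k : ℚ) + 1) / N) := by
      gcongr
      linarith
    have h1 := hF6 (((k : ℚ) + 1) / N) (fun x => (f (x, gp N k) : ℝ))
      (hfm N k).coe_nnreal_real (fun x => by
        rw [abs_of_nonneg (NNReal.coe_nonneg _)]
        exact_mod_cast hf1 _)
    have h2 := hF6 ((k : ℚ) / N) (fun x => (f (x, gp N k) : ℝ))
      (hfm N k).coe_nnreal_real (fun x => by
        rw [abs_of_nonneg (NNReal.coe_nonneg _)]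
        exact_mod_cast hf1 _)
    have h3 := ENNReal.tendsto_ofReal (h1.sub h2)
    have hbd : ∀ g : X → ℝ, Integrable g m →
        Integrable (fun x => g x * (f (x, gp N k) : ℝ)) m := by
      intro g hg
      refine hg.mul_bdd (c := 1) (hfm N k).coe_nnreal_real.aestronglyMeasurable ?_
      refine Eventually.of_forall (fun x => ?_)
      rw [Real.norm_of_nonneg (NNReal.coe_nonneg _)]
      exact_mod_cast hf1 _
    have hcoef : ∀ x, (f (x, gp N k) : ℝ≥0∞) = ENNReal.ofReal (f (x, gp N k) : ℝ) := by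
      intro x
      rw [ENNReal.ofReal_coe_nnreal]
    have hlint : ∀ n (q : ℚ), Integrable (fun x => (ms (lam n) 0 q x).toReal) m := by
      intro n q
      have hL : MemLp (fun x => (ms (lam n) 0 q x).toReal) 2 m := by
        refine ⟨((ms_meas (hm n) 0 q).ennreal_toReal).aestronglyMeasurable, ?_⟩
        rw [eLpNorm_lt_top_iff_lintegral_rpow_enorm_lt_top (by norm_num) (by norm_num)]
        simp only [ENNReal.toReal_ofNat, ENNReal.rpow_ofNat]
        refine lt_of_le_of_lt (lintegral_mono (fun x => ?_))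
          (lt_of_le_of_lt (hK n) ENNReal.coe_lt_top)
        have h1 : ‖(ms (lam n) 0 q x).toReal‖ₑ = ms (lam n) 0 q x := by
          rw [Real.enorm_of_nonneg ENNReal.toReal_nonneg,
            ENNReal.ofReal_toReal (lt_of_le_of_lt (ms_le _ _ x) (hfin n x)).ne]
        rw [h1]
        gcongr
        exact ms_le _ _ _
      exact hL.integrable (by norm_num)
    have e3 : ENNReal.ofReal (∫ x, F (((k : ℚ) + 1) / N) x * (f (x, gp N k) : ℝ) ∂m -
        ∫ x, F ((k : ℚ) / N) x * (f (x, gp N k) : ℝ) ∂m) =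
        ∫⁻ x, (f (x, gp N k) : ℝ≥0∞) *
          ENNReal.ofReal (F (((k : ℚ) + 1) / N) x - F ((k : ℚ) / N) x) ∂m := by
      have hi : Integrable (fun x => F (((k : ℚ) + 1) / N) x * (f (x, gp N k) : ℝ) -
          F ((k : ℚ) / N) x * (f (x, gp N k) : ℝ)) m := (hbd _ (hF2 _)).sub (hbd _ (hF2 _))
      rw [← integral_sub (hbd _ (hF2 _)) (hbd _ (hF2 _)), ofReal_integral_eq_lintegral_ofReal
        hi (Eventually.of_forall (fun x => ?_))]
      · refine lintegral_congr (fun x => ?_)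
        rw [hcoef, ← ENNReal.ofReal_mul (NNReal.coe_nonneg _)]
        congr 1
        ring
      · have := hF3 x hq
        simp only at this
        simp only [Pi.zero_apply]
        rw [← sub_mul]
        exact mul_nonneg (by linarith) (NNReal.coe_nonneg _)
    rw [← e3]
    refine h3.congr (fun n => ?_)
    have hsub : ∀ x, (ms (lam n) 0 (((((k : ℚ) + 1) / N : ℚ)) : ℝ) x).toReal -
        (ms (lam n) 0 ((((k : ℚ) / N : ℚ)) : ℝ) x).toReal =
        (ms (lam n) ((k : ℝ) / N) (((k : ℝ) + 1) / N) x).toReal := by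
      intro x
      have h5 := ms_add (l := lam n) 0 ((k : ℝ) / N) (((k : ℝ) + 1) / N) (by positivity)
        (by gcongr; linarith) x
      push_cast
      rw [h5, ENNReal.toReal_add (lt_of_le_of_lt (ms_le _ _ x) (hfin n x)).ne
        (lt_of_le_of_lt (ms_le _ _ x) (hfin n x)).ne]
      ring
    have hi : Integrable (fun x => (ms (lam n) 0 (((((k : ℚ) + 1) / N : ℚ)) : ℝ) x).toReal *
        (f (x, gp N k) : ℝ) - (ms (lam n) 0 ((((k : ℚ) / N : ℚ)) : ℝ) x).toReal *
        (f (x, gp N k) : ℝ)) m := (hbd _ (hlint n _)).sub (hbd _ (hlint n _))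
    rw [← integral_sub (hbd _ (hlint n _)) (hbd _ (hlint n _)), ofReal_integral_eq_lintegral_ofReal
        hi (Eventually.of_forall (fun x => ?_))]
    · refine lintegral_congr (fun x => ?_)
      rw [← sub_mul, hsub x, hcoef, mul_comm, ENNReal.ofReal_mul (NNReal.coe_nonneg _),
        ENNReal.ofReal_toReal (lt_of_le_of_lt (ms_le _ _ x) (hfin n x)).ne]
    · simp only [Pi.zero_apply]
      rw [← sub_mul, hsub x]
      exact mul_nonneg ENNReal.toReal_nonneg (NNReal.coe_nonneg _)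
  have hc' : Tendsto (fun n => ∫⁻ x, (∫⁻ s, (f (x, s) : ℝ≥0∞) * lam n (x, s)) ∂m)
      (hyperfilter ℕ : Filter ℕ) (𝓝 c) := by
    refine hc.mono_left ?_
    rw [← Nat.cofinite_eq_atTop]
    exact hyperfilter_le_cofinite
  -- lam side
  have hL1 : ∀ N n : ℕ, 0 < N →
      ∫⁻ x, (∫⁻ s, (f (x, s) : ℝ≥0∞) * lam n (x, s)) ∂m ≤ Sn N n + δ N := by
    intro N n hN
    calc ∫⁻ x, (∫⁻ s, (f (x, s) : ℝ≥0∞) * lam n (x, s)) ∂m
        ≤ ∫⁻ x, (∑ k ∈ Finset.range N, (f (x, gp N k) : ℝ≥0∞) *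
        ms (lam n) ((k : ℝ) / N) (((k : ℝ) + 1) / N) x + w N x * ∫⁻ s, lam n (x, s)) ∂m :=
          lintegral_mono (fun x => (lamEst (lam n) (hm n) f hf w hw4 N hN x).1)
      _ = Sn N n + ∫⁻ x, w N x * (∫⁻ s, lam n (x, s)) ∂m :=
          lintegral_add_right _ ((hw1 N).mul (hmass n))
      _ ≤ Sn N n + δ N := by
          gcongr
          exact hCS N _ (hmass n) (hK n)
  have hL2 : ∀ N n : ℕ, 0 < N →
      Sn N n ≤ ∫⁻ x, (∫⁻ s, (f (x, s) : ℝ≥0∞) * lam n (x, s)) ∂m + δ N := by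
    intro N n hN
    calc Sn N n
        ≤ ∫⁻ x, ((∫⁻ s, (f (x, s) : ℝ≥0∞) * lam n (x, s)) + w N x * ∫⁻ s, lam n (x, s)) ∂m :=
          lintegral_mono (fun x => (lamEst (lam n) (hm n) f hf w hw4 N hN x).2)
      _ = ∫⁻ x, (∫⁻ s, (f (x, s) : ℝ≥0∞) * lam n (x, s)) ∂m +
            ∫⁻ x, w N x * (∫⁻ s, lam n (x, s)) ∂m :=
          lintegral_add_right _ ((hw1 N).mul (hmass n))
      _ ≤ _ := by
          gcongr
          exact hCS N _ (hmass n) (hK n)
  have hT1 : ∀ N : ℕ, 0 < N → TT ≤ SS N + δ N := by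
    intro N hN
    calc TT ≤ ∫⁻ x, (∑ k ∈ Finset.range N, (f (x, gp N k) : ℝ≥0∞) *
          ENNReal.ofReal (F (((k : ℚ) + 1) / N) x - F ((k : ℚ) / N) x) +
            w N x * ENNReal.ofReal (F 1 x)) ∂m :=
          lintegral_mono (fun x => (quaEst F hF3 hF4 τ hτ1 hτ2 f w hw4 N hN x).1)
      _ = SS N + ∫⁻ x, w N x * ENNReal.ofReal (F 1 x) ∂m :=
          lintegral_add_right _ ((hw1 N).mul hG1m)
      _ ≤ _ := by
          gcongr
          exact hCS N _ hG1m hF5
  have hT2 : ∀ N : ℕ, 0 < N → SS N ≤ TT + δ N := by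
    intro N hN
    calc SS N ≤ ∫⁻ x, (ENNReal.ofReal (F 1 x) * (∫⁻ u, (f (x, τ (x, u)) : ℝ≥0∞)) +
            w N x * ENNReal.ofReal (F 1 x)) ∂m :=
          lintegral_mono (fun x => (quaEst F hF3 hF4 τ hτ1 hτ2 f w hw4 N hN x).2)
      _ = TT + ∫⁻ x, w N x * ENNReal.ofReal (F 1 x) ∂m :=
          lintegral_add_right _ ((hw1 N).mul hG1m)
      _ ≤ _ := by
          gcongr
          exact hCS N _ hG1m hF5
  have hc1 : ∀ N : ℕ, 0 < N → c ≤ SS N + δ N := fun N hN =>
    le_of_tendsto_of_tendsto' hc' ((hconv N hN).add tendsto_const_nhds) (fun n => hL1 N n hN)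
  have hc2 : ∀ N : ℕ, 0 < N → SS N ≤ c + δ N := fun N hN =>
    le_of_tendsto_of_tendsto' (hconv N hN) (hc'.add tendsto_const_nhds) (fun n => hL2 N n hN)
  have hδ2 : Tendsto (fun N => δ N + δ N) atTop (𝓝 0) := by
    simpa using hδ.add hδ
  apply le_antisymm
  · have h1 : ∀ N : ℕ, 0 < N → TT ≤ c + (δ N + δ N) := fun N hN => by
      calc TT ≤ SS N + δ N := hT1 N hN
        _ ≤ (c + δ N) + δ N := by gcongr; exact hc2 N hN
        _ = _ := by rw [add_assoc]
    have h2 : Tendsto (fun N => c + (δ N + δ N)) atTop (𝓝 (c + 0)) :=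
      tendsto_const_nhds.add hδ2
    rw [add_zero] at h2
    exact ge_of_tendsto h2 (by
      filter_upwards [eventually_gt_atTop 0] with N hN using h1 N hN)
  · have h1 : ∀ N : ℕ, 0 < N → c ≤ TT + (δ N + δ N) := fun N hN => by
      calc c ≤ SS N + δ N := hc1 N hN
        _ ≤ (TT + δ N) + δ N := by gcongr; exact hT2 N hN
        _ = _ := by rw [add_assoc]
    have h2 : Tendsto (fun N => TT + (δ N + δ N)) atTop (𝓝 (TT + 0)) :=
      tendsto_const_nhds.add hδ2
    rw [add_zero] at h2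
    exact ge_of_tendsto h2 (by
      filter_upwards [eventually_gt_atTop 0] with N hN using h1 N hN)

/-- **WT-YM** -/
theorem ym : Q297.WT.S_YM := by
  intro X _ m _ lam K hm hK
  classical
  have hmass : ∀ n, Measurable fun x => ∫⁻ s, lam n (x, s) := fun n =>
    Measurable.lintegral_prod_right' (hm n)
  let A : ℕ → Set X := fun n => {x | ∫⁻ s, lam n (x, s) = ∞}
  have hA : ∀ n, MeasurableSet (A n) := fun n => (hmass n) (measurableSet_singleton _)
  have hA0 : ∀ n, ∀ᵐ x ∂m, x ∉ A n := by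
    intro n
    have h1 : ∫⁻ x, (∫⁻ s, lam n (x, s)) ^ 2 ∂m ≠ ∞ :=
      (lt_of_le_of_lt (hK n) ENNReal.coe_lt_top).ne
    have h2 := ae_lt_top ((hmass n).pow_const 2) h1
    filter_upwards [h2] with x hx hxA
    have hxA' : ∫⁻ s, lam n (x, s) = ∞ := hxA
    rw [hxA'] at hx
    simp at hx
  let lam' : ℕ → X × I → ℝ≥0∞ := fun n p => if p.1 ∈ A n then 0 else lam n p
  have hm' : ∀ n, Measurable (lam' n) := fun n =>
    Measurable.ite (measurable_fst (hA n)) measurable_const (hm n)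
  have heq : ∀ n x, x ∉ A n → ∀ s, lam' n (x, s) = lam n (x, s) := by
    intro n x hx s
    simp only [lam', hx, if_false]
  have hle : ∀ n p, lam' n p ≤ lam n p := by
    intro n p
    simp only [lam']
    split_ifs
    · exact zero_le
    · exact le_rfl
  have hfin' : ∀ n x, ∫⁻ s, lam' n (x, s) < ∞ := by
    intro n x
    by_cases hx : x ∈ A n
    · simp [lam', hx]
    · simp only [heq n x hx]
      exact lt_top_iff_ne_top.2 hx
  have hK' : ∀ n, ∫⁻ x, (∫⁻ s, lam' n (x, s)) ^ 2 ∂m ≤ K := by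
    intro n
    refine le_trans (lintegral_mono (fun x => ?_)) (hK n)
    gcongr
    exact hle n _
  obtain ⟨G, τ, hG, hτ, hGK, hfin⟩ := ymFin m lam' K hm' hK' hfin'
  refine ⟨G, τ, hG, hτ, hGK, ?_⟩
  intro f hf hf1 hfc c hc
  refine hfin f hf hf1 hfc c ?_
  refine hc.congr (fun n => ?_)
  refine lintegral_congr_ae ?_
  filter_upwards [hA0 n] with x hx
  simp only [heq n x hx]

end Q79.WT
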